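import Pool.Agent.N922.PQ.Stm2
import Pool.Agent.N704.PJ.Hensel

/-!
# Project PV (helper922): parts SQD and TWG

`D = 1` modulo `8` is a square in the completion at a prime over `2`; the local condition for the
twist by a square.
-/

set_option autoImplicit false

open Polynomial IsDedekindDomain

namespace Pool.Agent.N279.PV

open Pool.Agent.N922.PQ
open Pool.Agent.N874.PM (PLoc)

/-- **Part SQD.** -/
theorem sqd : S_SQD := by
  intro M R _ _ _ _ _ _ _ w hw D hD
  obtain ⟨k, hk⟩ : ∃ k : ℤ, D = 8 * k + 1 := ⟨D / 8, by omega⟩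
  have hv : ∀ x : R, Valued.v (Γ₀ := WithZero (Multiplicative ℤ))
      (algebraMap M (w.adicCompletion M) (algebraMap R M x)) = w.valuation M (algebraMap R M x) :=
    fun x => HeightOneSpectrum.valuedAdicCompletion_eq_valuation' w _
  have hint : ∀ n : ℤ, Valued.v (Γ₀ := WithZero (Multiplicative ℤ))
      ((n : ℤ) : w.adicCompletion M) ≤ 1 := by
    intro n
    have h1 : ((n : ℤ) : w.adicCompletion M) =
        algebraMap M (w.adicCompletion M) (algebraMap R M (n : R)) := by simp
    rw [h1, hv]
    exact w.valuation_le_one (n : R)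
  have h2 : Valued.v (Γ₀ := WithZero (Multiplicative ℤ)) ((2 : ℤ) : w.adicCompletion M) < 1 := by
    have h1 : ((2 : ℤ) : w.adicCompletion M) =
        algebraMap M (w.adicCompletion M) (algebraMap R M ((2 : ℤ) : R)) := by
      rw [map_intCast, map_intCast]
    rw [h1, hv]
    exact (w.valuation_lt_one_iff_mem (K := M) ((2 : ℤ) : R)).2 hw
  obtain ⟨z, hz, -⟩ := Pool.Agent.N704.PJ.hensel (L := w.adicCompletion M)
    (X ^ 2 + X - C ((2 : ℤ) * (k : ℤ) : w.adicCompletion M)) (a := 0)
    (by
      intro i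
      have : (X ^ 2 + X - C ((2 : ℤ) * (k : ℤ) : w.adicCompletion M) :
          (w.adicCompletion M)[X]).coeff i =
          (((X ^ 2 + X - C (2 * k) : ℤ[X]).coeff i : ℤ) : w.adicCompletion M) := by
        have h3 : (X ^ 2 + X - C ((2 : ℤ) * (k : ℤ) : w.adicCompletion M) :
          (w.adicCompletion M)[X]) =
            (X ^ 2 + X - C (2 * k) : ℤ[X]).map (Int.castRingHom (w.adicCompletion M)) := by
          simp only [Polynomial.map_sub, Polynomial.map_add, Polynomial.map_pow, map_X, map_C,
            Polynomial.map_mul, map_mul, Int.coe_castRingHom, map_intCast]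
        rw [h3, coeff_map]
        rfl
      rw [this]
      exact hint _)
    (by rw [map_zero]; exact zero_le)
    (by
      simp only [eval_sub, eval_add, eval_pow, eval_X, eval_C]
      rw [zero_pow two_ne_zero, zero_add, zero_sub, Valuation.map_neg, map_mul]
      exact mul_lt_one_of_lt_of_le h2 (hint k))
    (by simp)
  refine ⟨1 + 2 * z, ?_⟩
  simp only [eval_sub, eval_add, eval_pow, eval_X, eval_C] at hz
  rw [hk]
  push_cast at hz ⊢
  linear_combination (-4 : w.adicCompletion M) * hz

/-- substitution `X -> D X` in the cubic polynomial of the twist -/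
theorem comp_cub {K : Type} [Field K] (a b D : K) :
    (X ^ 3 + C (a * D ^ 2) * X + C (b * D ^ 3) : K[X]).comp (C D * X) =
      C (D ^ 3) * (X ^ 3 + C a * X + C b) := by
  simp only [add_comp, mul_comp, pow_comp, X_comp, C_comp, map_mul, map_pow]
  ring

theorem dvd_comp_cub {K : Type} [Field K] (a b D : K) {P : K[X]}
    (h : X ^ 3 + C (a * D ^ 2) * X + C (b * D ^ 3) ∣ P) :
    X ^ 3 + C a * X + C b ∣ P.comp (C D * X) := by
  obtain ⟨Q, rfl⟩ := h
  rw [mul_comp, comp_cub]
  exact ⟨C (D ^ 3) * Q.comp (C D * X), by ring⟩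

/-- **Part TWG.** (adapted from `N3/PQ/TW2.lean`) -/
theorem twg : S_TWG := by
  intro M F _ _ _ _ a b D hD0 hsq h H
  obtain ⟨d, hd⟩ := hsq
  have : CharZero F := (RingHom.charZero_iff (algebraMap M F).injective).1 inferInstance
  have hDne : (D : F) ≠ 0 := by exact_mod_cast hD0
  have hdne : d ≠ 0 := by
    intro h0
    rw [h0, zero_mul] at hd
    exact hDne hd
  have hA : algebraMap M F ((a * D ^ 2 : ℤ) : M) = (a : F) * (D : F) ^ 2 := by simp
  have hB : algebraMap M F ((b * D ^ 3 : ℤ) : M) = (b : F) * (D : F) ^ 3 := by simp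
  have hh : (h.comp (C (D : M) * X)).map (algebraMap M F) =
      (h.map (algebraMap M F)).comp (C (D : F) * X) := by
    rw [Polynomial.map_comp, Polynomial.map_mul, map_C, map_X]
    simp
  unfold PLoc at H
  rw [hA, hB] at H
  unfold PL ff
  rw [hh]
  rcases H with ⟨g, hg⟩ | ⟨x, y, hy, hxy, g, hg⟩
  · left
    refine ⟨g.comp (C (D : F) * X), ?_⟩
    have h2 := dvd_comp_cub _ _ _ hg
    rw [sub_comp, pow_comp] at h2
    exact h2
  · right
    refine ⟨x / D, y / d ^ 3, div_ne_zero hy (pow_ne_zero 3 hdne), ?_,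
      C (1 / d) * g.comp (C (D : F) * X), ?_⟩
    · have h3 : (d ^ 3) ^ 2 = (D : F) ^ 3 := by rw [hd]; ring
      rw [div_pow, h3, hxy]
      field_simp
    · have h2 := dvd_comp_cub _ _ _ hg
      rw [sub_comp, pow_comp, mul_comp, sub_comp, C_comp, X_comp] at h2
      have h3 : (C (x / (D : F)) - X) * (h.map (algebraMap M F)).comp (C (D : F) * X) -
          (C (1 / d) * g.comp (C (D : F) * X)) ^ 2 =
          C (1 / (D : F)) * ((C x - C (D : F) * X) *
            (h.map (algebraMap M F)).comp (C (D : F) * X) - g.comp (C (D : F) * X) ^ 2) := by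
        have e1 : (C (x / (D : F)) : F[X]) = C (1 / (D : F)) * C x := by
          rw [← C_mul]
          congr 1
          field_simp
        have e2 : (C (1 / (D : F)) : F[X]) * C (D : F) = 1 := by
          rw [← C_mul, one_div_mul_cancel hDne, C_1]
        have e3 : (C (1 / d) : F[X]) ^ 2 = C (1 / (D : F)) := by
          rw [← C_pow, div_pow, one_pow, hd, sq]
        rw [e1, mul_pow, e3]
        linear_combination (-(X : F[X]) * (h.map (algebraMap M F)).comp (C (D : F) * X)) * (1 - e2)
      rw [h3]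
      exact Dvd.dvd.mul_left h2 _

end Pool.Agent.N279.PV
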